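import Pool.Agent.H8.TD.Targets

/-!
# Numbers: the growth conditions are satisfied at some scale (GR3)
-/

set_option autoImplicit false

namespace Pool.Agent.H91.TD

open MvPolynomial
open Pool.Agent.H12.ZD (pmap v O Res DenseOrbit NoInv)
open Pool.Agent.H18.HIT
open Pool.Agent.H8.ZA (HFam Const NA sz)
open Pool.Agent.H8.TD

theorem gr3_sub (d : ℕ → ℕ) (hd : ∀ n, 1 ≤ d n) (hdd : ∀ m n, d (m + n) ≤ d m * d n) :
    Subadditive (fun n => Real.log (d n)) := by
  intro m n
  have h1 : (0 : ℝ) < d m := by exact_mod_cast hd m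
  have h2 : (0 : ℝ) < d n := by exact_mod_cast hd n
  have h3 : (0 : ℝ) < d (m + n) := by exact_mod_cast hd (m + n)
  change Real.log (d (m + n)) ≤ Real.log (d m) + Real.log (d n)
  rw [← Real.log_mul h1.ne' h2.ne']
  exact Real.log_le_log h3 (by exact_mod_cast hdd m n)

theorem gr3_bdd (d : ℕ → ℕ) : BddBelow (Set.range fun n : ℕ => Real.log (d n) / n) := by
  refine ⟨0, ?_⟩
  rintro _ ⟨n, rfl⟩
  exact div_nonneg (Real.log_natCast_nonneg _) (Nat.cast_nonneg _)

/-- the growth rate -/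
theorem gr3_lim (a : ℕ → ℕ) (c : ℝ) (hc : 0 < c) (ha : ∀ n, 1 ≤ a n)
    (haa : ∀ m n, a (m + n) ≤ a m * a n) (hgr : ∀ N, ∃ n ≥ N, c ^ n ≤ (a n : ℝ)) :
    ∃ L : ℝ, Real.log c ≤ L ∧ (∀ n : ℕ, 1 ≤ n → Real.exp (L * n) ≤ (a n : ℝ)) ∧
      ∀ δ : ℝ, 0 < δ → ∃ n₁ : ℕ, ∀ n : ℕ, n₁ ≤ n → (a n : ℝ) ≤ Real.exp ((L + δ) * n) := by
  have sd := gr3_sub a ha haa
  have td := sd.tendsto_lim (gr3_bdd a)
  refine ⟨sd.lim, ?_, ?_, ?_⟩
  · by_contra hlt
    push Not at hlt
    have h1 : ∀ᶠ n : ℕ in Filter.atTop, Real.log (a n) / n < Real.log c :=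
      td.eventually (gt_mem_nhds hlt)
    obtain ⟨N, hN⟩ := Filter.eventually_atTop.1 h1
    obtain ⟨n, hn, hcn⟩ := hgr (max N 1)
    have h2 := hN n ((le_max_left _ _).trans hn)
    have hn0 : (0 : ℝ) < n := by
      have : 1 ≤ n := (le_max_right _ _).trans hn
      exact_mod_cast this
    rw [div_lt_iff₀ hn0] at h2
    have h3 : Real.log (c ^ n) ≤ Real.log (a n) := Real.log_le_log (by positivity) hcn
    rw [Real.log_pow] at h3
    linarith
  · intro n hn
    have hn0 : (0 : ℝ) < n := by exact_mod_cast hn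
    have h1 : sd.lim ≤ Real.log (a n) / n := sd.lim_le_div (gr3_bdd a) (by omega)
    rw [le_div_iff₀ hn0] at h1
    have h2 : (0 : ℝ) < a n := by exact_mod_cast ha n
    exact (Real.le_log_iff_exp_le h2).mp h1
  · intro δ hδ
    have h1 : ∀ᶠ n : ℕ in Filter.atTop, Real.log (a n) / n < sd.lim + δ :=
      td.eventually (gt_mem_nhds (by linarith))
    obtain ⟨N, hN⟩ := Filter.eventually_atTop.1 h1
    refine ⟨max N 1, fun n hn => ?_⟩
    have hn0 : (0 : ℝ) < n := by
      have : 1 ≤ n := (le_max_right _ _).trans hn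
      exact_mod_cast this
    have h2 := hN n ((le_max_left _ _).trans hn)
    rw [div_lt_iff₀ hn0] at h2
    have h3 : (0 : ℝ) < a n := by exact_mod_cast ha n
    exact (Real.log_le_iff_le_exp h3).mp h2.le

theorem gr3_nine : (5832 : ℝ) ≤ Real.exp 9 := by
  have h1 : (2.7182818283 : ℝ) ≤ Real.exp 1 := Real.exp_one_gt_d9.le
  have h2 : Real.exp 9 = Real.exp 1 ^ 9 := by
    rw [← Real.exp_nat_mul]
    norm_num
  rw [h2]
  calc (5832 : ℝ) ≤ 2.7182818283 ^ 9 := by norm_num
    _ ≤ Real.exp 1 ^ 9 := pow_le_pow_left₀ (by norm_num) h1 9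

theorem pf_GR3 : T_GR3 := by
  intro a Y M e c ha haa he hec hgr hM1 hM2
  have he0 : (0 : ℝ) < e := by exact_mod_cast he
  have hc0 : 0 < c := he0.trans hec
  obtain ⟨L, hcL, hlo, hup⟩ := gr3_lim a c hc0 ha haa hgr
  obtain ⟨ε, hε⟩ : ∃ ε, ε = Real.log e := ⟨_, rfl⟩
  have hε0 : 0 ≤ ε := by
    rw [hε]
    exact Real.log_nonneg (by exact_mod_cast he)
  have hεL : ε < L := by
    rw [hε]
    exact (Real.log_lt_log he0 hec).trans_le hcL
  obtain ⟨δ, hδ⟩ : ∃ δ, δ = (L - ε) / 14 := ⟨_, rfl⟩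
  have hδ0 : 0 < δ := by
    rw [hδ]
    linarith
  have hLe : L = ε + 14 * δ := by
    rw [hδ]
    ring
  obtain ⟨n₁, hn₁⟩ := hup δ hδ0
  obtain ⟨k, hk⟩ := exists_nat_ge (30 / δ)
  obtain ⟨m, hm⟩ : ∃ m, m = max (max n₁ 1) k := ⟨_, rfl⟩
  have hm1 : 1 ≤ m := by omega
  have hmn : n₁ ≤ m := by omega
  have hmδ : 30 ≤ δ * (m : ℝ) := by
    have h1 : (k : ℝ) ≤ m := by
      have : k ≤ m := by omega
      exact_mod_cast this
    have h2 : 30 / δ ≤ (m : ℝ) := hk.trans h1
    rw [div_le_iff₀ hδ0] at h2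
    linarith
  have hm0 : (0 : ℝ) ≤ m := Nat.cast_nonneg m
  have hmε : 0 ≤ ε * m := mul_nonneg hε0 hm0
  -- the numbers
  have hem : ((e : ℝ)) ^ m = Real.exp (ε * m) := by
    rw [hε, mul_comm, Real.exp_nat_mul, Real.exp_log he0]
  have hem2 : ((e : ℝ)) ^ (m + m) = Real.exp (2 * (ε * m)) := by
    rw [pow_add, hem, ← Real.exp_add]
    congr 1
    ring
  have u1 : (a m : ℝ) ≤ Real.exp ((L + δ) * m) := hn₁ m hmn
  have u2 : (a (m + m) : ℝ) ≤ Real.exp (2 * ((L + δ) * m)) := by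
    have h := hn₁ (m + m) (by omega)
    have e1 : (L + δ) * ((m + m : ℕ) : ℝ) = 2 * ((L + δ) * m) := by push_cast; ring
    rwa [e1] at h
  have l4 : Real.exp (4 * (L * m)) ≤ (a (m + m + (m + m)) : ℝ) := by
    have h := hlo (m + m + (m + m)) (by omega)
    have e1 : L * ((m + m + (m + m) : ℕ) : ℝ) = 4 * (L * m) := by push_cast; ring
    rwa [e1] at h
  have h9 := gr3_nine
  by_contra hno
  push Not at hno
  have hg1 := (hno (m + m) (by omega)).1
  have hg2 := (hno m hm1).2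
  -- the first condition of `GI` at `2 m`
  have c1 : 54 * a (m + m) * e ^ (m + m) < a (m + m + (m + m)) := by
    have h : (54 : ℝ) * a (m + m) * (e : ℝ) ^ (m + m) < a (m + m + (m + m)) := by
      rw [hem2]
      calc (54 : ℝ) * a (m + m) * Real.exp (2 * (ε * m))
          ≤ Real.exp 9 * Real.exp (2 * ((L + δ) * m)) * Real.exp (2 * (ε * m)) := by
            refine mul_le_mul_of_nonneg_right ?_ (Real.exp_pos _).le
            exact mul_le_mul (by linarith) u2 (Nat.cast_nonneg _) (Real.exp_pos _).le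
        _ = Real.exp (9 + 2 * ((L + δ) * m) + 2 * (ε * m)) := by
            rw [Real.exp_add, Real.exp_add]
        _ < Real.exp (4 * (L * m)) := by
            rw [Real.exp_lt_exp, hLe]
            nlinarith
        _ ≤ _ := l4
    exact_mod_cast h
  have c2 : a (m + m + (m + m)) ^ 2 < 5832 * M (m + m) * a (m + m) := by
    by_contra h
    push Not at h
    exact hg1 ⟨c1, h⟩
  have c3 : a (m + m + (m + m)) ^ 2 < 5832 * (a (m + m) * Y (m + m)) * a (m + m) := by
    refine c2.trans_le ?_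
    exact Nat.mul_le_mul_right _ (Nat.mul_le_mul_left _ (hM1 (m + m)))
  -- `Y (2 m)` is large
  have hY : Real.exp (4 * (L * m) - 4 * (δ * m) - 9) < (Y (m + m) : ℝ) := by
    have h1 : ((a (m + m + (m + m)) : ℝ)) ^ 2 <
        5832 * ((a (m + m) : ℝ) * Y (m + m)) * a (m + m) := by exact_mod_cast c3
    have h2 : Real.exp (4 * (L * m)) ^ 2 ≤ ((a (m + m + (m + m)) : ℝ)) ^ 2 :=
      pow_le_pow_left₀ (Real.exp_pos _).le l4 2
    have hYn : (0 : ℝ) ≤ Y (m + m) := Nat.cast_nonneg _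
    have h3 : 5832 * ((a (m + m) : ℝ) * Y (m + m)) * a (m + m) ≤
        Real.exp 9 * (Real.exp (2 * ((L + δ) * m)) * Y (m + m)) *
          Real.exp (2 * ((L + δ) * m)) := by
      refine mul_le_mul (mul_le_mul h9 (mul_le_mul_of_nonneg_right u2 hYn) ?_ ?_) u2 ?_ ?_
      · positivity
      · exact (Real.exp_pos _).le
      · exact Nat.cast_nonneg _
      · positivity
    have h4 : Real.exp (4 * (L * m)) ^ 2 <
        Real.exp 9 * (Real.exp (2 * ((L + δ) * m)) * Y (m + m)) *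
          Real.exp (2 * ((L + δ) * m)) := (h2.trans_lt h1).trans_le h3
    have h5 : Real.exp 9 * (Real.exp (2 * ((L + δ) * m)) * Y (m + m)) *
          Real.exp (2 * ((L + δ) * m)) = Real.exp (9 + 4 * ((L + δ) * m)) * Y (m + m) := by
      have e1 : (9 : ℝ) + 4 * ((L + δ) * m) =
          9 + 2 * ((L + δ) * m) + 2 * ((L + δ) * m) := by ring
      rw [e1, Real.exp_add, Real.exp_add]
      ring
    have h6 : Real.exp (4 * (L * m)) ^ 2 =
        Real.exp (9 + 4 * ((L + δ) * m)) * Real.exp (4 * (L * m) - 4 * (δ * m) - 9) := by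
      rw [← Real.exp_nat_mul, ← Real.exp_add]
      congr 1
      push_cast
      ring
    rw [h5, h6] at h4
    exact lt_of_mul_lt_mul_left h4 (Real.exp_pos _).le
  -- `M m`
  have hMm : (M m : ℝ) ≤ Real.exp (3 * ((L + δ) * m)) := by
    have h1 : (M m : ℝ) ≤ (a m : ℝ) * a (m + m) := by exact_mod_cast hM2 m
    have h2 : (a m : ℝ) * a (m + m) ≤
        Real.exp ((L + δ) * m) * Real.exp (2 * ((L + δ) * m)) :=
      mul_le_mul u1 u2 (Nat.cast_nonneg _) (Real.exp_pos _).le
    have h3 : Real.exp ((L + δ) * m) * Real.exp (2 * ((L + δ) * m)) =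
        Real.exp (3 * ((L + δ) * m)) := by
      rw [← Real.exp_add]
      congr 1
      ring
    rw [← h3]
    exact h1.trans h2
  have hMn : (0 : ℝ) ≤ M m := Nat.cast_nonneg _
  refine hg2 ⟨?_, ?_⟩
  · have h : (54 : ℝ) * M m * (e : ℝ) ^ m < Y (m + m) := by
      rw [hem]
      calc (54 : ℝ) * M m * Real.exp (ε * m)
          ≤ Real.exp 9 * Real.exp (3 * ((L + δ) * m)) * Real.exp (ε * m) := by
            refine mul_le_mul_of_nonneg_right ?_ (Real.exp_pos _).le
            exact mul_le_mul (by linarith) hMm hMn (Real.exp_pos _).le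
        _ = Real.exp (9 + 3 * ((L + δ) * m) + ε * m) := by
            rw [Real.exp_add, Real.exp_add]
        _ ≤ Real.exp (4 * (L * m) - 4 * (δ * m) - 9) := by
            rw [Real.exp_le_exp, hLe]
            nlinarith
        _ < _ := hY
    exact_mod_cast h
  · have h : (5832 : ℝ) * ((e : ℝ) ^ m * ((a m : ℝ) * a m)) * M m ≤ (Y (m + m) : ℝ) ^ 2 := by
      rw [hem]
      have h1 : (a m : ℝ) * a m ≤ Real.exp ((L + δ) * m) * Real.exp ((L + δ) * m) :=
        mul_le_mul u1 u1 (Nat.cast_nonneg _) (Real.exp_pos _).le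
      calc (5832 : ℝ) * (Real.exp (ε * m) * ((a m : ℝ) * a m)) * M m
          ≤ Real.exp 9 * (Real.exp (ε * m) * (Real.exp ((L + δ) * m) * Real.exp ((L + δ) * m))) *
            Real.exp (3 * ((L + δ) * m)) := by
            refine mul_le_mul (mul_le_mul h9 (mul_le_mul_of_nonneg_left h1 (Real.exp_pos _).le)
              ?_ ?_) hMm hMn ?_
            · positivity
            · exact (Real.exp_pos _).le
            · positivity
        _ = Real.exp (9 + (ε * m + ((L + δ) * m + (L + δ) * m)) + 3 * ((L + δ) * m)) := by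
            rw [Real.exp_add, Real.exp_add, Real.exp_add, Real.exp_add]
        _ ≤ Real.exp (2 * (4 * (L * m) - 4 * (δ * m) - 9)) := by
            rw [Real.exp_le_exp, hLe]
            nlinarith
        _ = Real.exp (4 * (L * m) - 4 * (δ * m) - 9) ^ 2 := by
            rw [← Real.exp_nat_mul]
            push_cast
            rfl
        _ ≤ _ := pow_le_pow_left₀ (Real.exp_pos _).le hY.le 2
    exact_mod_cast h

end Pool.Agent.H91.TD
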