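import Pool.Agent.H8.TD.Targets

/-!
# Numbers for the height inequality (NUM)
-/

set_option autoImplicit false

namespace Pool.Agent.H91.TD

open MvPolynomial
open Pool.Agent.H12.ZD (pmap v O Res DenseOrbit NoInv)
open Pool.Agent.H18.HIT
open Pool.Agent.H8.ZA (HFam Const NA sz)
open Pool.Agent.H8.TD

/-- the inequality in terms of `x = Q' t` and `y = M t` -/
theorem num_core (x y n l : ℕ) (hx : 100 ≤ x) (hy : 100 ≤ y) (hn : 899 * x ≤ 100 * n)
    (hl : 899 * y ≤ 100 * l) :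
    x * (18 * y + 1) ^ 2 < (n + 1) * ((l + 1) * (l + 2) / 2) := by
  have hev : 2 * ((l + 1) * (l + 2) / 2) = (l + 1) * (l + 2) := by
    have h := Nat.even_mul_succ_self (l + 1)
    exact Nat.two_mul_div_two_of_even h
  have h1 : (899 * y) * (899 * y) ≤ (100 * l) * (100 * l) := Nat.mul_le_mul hl hl
  have h2 : (100 * l) * (100 * l) ≤ 10000 * ((l + 1) * (l + 2)) := by nlinarith
  have h3 : (899 * x) * ((899 * y) * (899 * y)) ≤ (100 * (n + 1)) * (10000 * ((l + 1) * (l + 2))) :=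
    Nat.mul_le_mul (by omega) (h1.trans h2)
  have h4 : 100 * (18 * y + 1) ≤ 1801 * y := by omega
  have h5 : (100 * (18 * y + 1)) * (100 * (18 * y + 1)) ≤ (1801 * y) * (1801 * y) :=
    Nat.mul_le_mul h4 h4
  have h6 : x * ((100 * (18 * y + 1)) * (100 * (18 * y + 1))) ≤ x * ((1801 * y) * (1801 * y)) :=
    Nat.mul_le_mul_left x h5
  have hpos : 0 < x * (y * y) := by positivity
  have h7 : 2 * (x * (18 * y + 1) ^ 2) < (n + 1) * ((l + 1) * (l + 2)) := by
    have h8 : 10000 * (x * (18 * y + 1) ^ 2) ≤ 1801 * 1801 * (x * (y * y)) := by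
      calc 10000 * (x * (18 * y + 1) ^ 2) = x * ((100 * (18 * y + 1)) * (100 * (18 * y + 1))) := by
            ring
        _ ≤ x * ((1801 * y) * (1801 * y)) := h6
        _ = 1801 * 1801 * (x * (y * y)) := by ring
    have h9 : 899 * 899 * 899 * (x * (y * y)) ≤ 1000000 * ((n + 1) * ((l + 1) * (l + 2))) := by
      calc 899 * 899 * 899 * (x * (y * y)) = (899 * x) * ((899 * y) * (899 * y)) := by ring
        _ ≤ (100 * (n + 1)) * (10000 * ((l + 1) * (l + 2))) := h3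
        _ = 1000000 * ((n + 1) * ((l + 1) * (l + 2))) := by ring
    omega
  have h10 : 2 * ((n + 1) * ((l + 1) * (l + 2) / 2)) = (n + 1) * ((l + 1) * (l + 2)) := by
    calc 2 * ((n + 1) * ((l + 1) * (l + 2) / 2)) = (n + 1) * (2 * ((l + 1) * (l + 2) / 2)) := by ring
      _ = _ := by rw [hev]
  omega

theorem pf_NUM : Pool.Agent.H8.TD.T_NUM := by
  intro Q Q' M n₀ hQ hQ' hM
  obtain ⟨t, ht⟩ : ∃ t, t = 100 * (n₀ + 1) := ⟨_, rfl⟩
  obtain ⟨x, hx⟩ : ∃ x, x = Q' * t := ⟨_, rfl⟩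
  obtain ⟨y, hy⟩ : ∃ y, y = M * t := ⟨_, rfl⟩
  have hxt : t ≤ x := by rw [hx]; exact Nat.le_mul_of_pos_left t hQ'
  have hyt : t ≤ y := by rw [hy]; exact Nat.le_mul_of_pos_left t hM
  have e1 : 9 * Q' * t = 9 * x := by rw [hx, mul_assoc]
  have e2 : 9 * M * t = 9 * y := by rw [hy, mul_assoc]
  refine ⟨t, 9 * x - n₀, 9 * y - n₀, by omega, by omega, by omega, ?_⟩
  have h := num_core x y (9 * x - n₀) (9 * y - n₀) (by omega) (by omega) (by omega) (by omega)
  have e3 : Q * t * ((18 * M * t + 1) * (9 * Q' * t * M + (9 * M * t + 1) * Q')) =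
      Q * (x * (18 * y + 1) ^ 2) := by
    rw [hx, hy]
    ring
  rw [e3]
  exact Nat.mul_lt_mul_of_pos_left h hQ

end Pool.Agent.H91.TD
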